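import Pool.Agent.Y712.SAF.Orbit

/-!
# No power of `f` has an attracting fixed point at infinity

For the polynomial automorphism `f(x, y, z) = (y, z y² - x, z + 1)` of `ℂ³` and every `k ≥ 1`, the
automorphism `f^k` has dynamical degrees `λ(f^k) = λ(f^(-k)) = 2^k`, so `λ(f^k)² > λ(f^(-k))`, and
no projective compactification `Y` of `ℂ³` has, on `Y ∖ ℂ³`, an attracting fixed point of `f^k` or
of `f^(-k)` (all eigenvalues of the differential of modulus `< 1`; super-attracting means that they
vanish).  Even more, if `f^k` or `f^(-k)` is continuous at a fixed point of `Y ∖ ℂ³`, then no orbit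
in `ℂ³` converges to this point at a geometric rate.

The case `k = 1` with super-attracting in place of attracting points, for `f` itself, is the file
`NoSuperAttracting.lean` of this folder.
-/

set_option autoImplicit false

open MvPolynomial SuperAttracting Y712.SAF in
theorem Pool.Agent.Results.MP_4eb9bb_ag.NoAttractingPowers.result :
    ∃ f : PolyAut, f.f = ![X 1, X 2 * X 1 ^ 2 - X 0, X 2 + 1] ∧ ∀ k : ℕ, 1 ≤ k →
      HasDynamicalDegree (powAut f k).f (2 ^ k) ∧ HasDynamicalDegree (powAut f k).finv (2 ^ k) ∧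
      ∀ (N : ℕ) (Y : ProjCompactification N) (v : Fin (N + 1) → ℂ), Y.AtInfinity v →
        ¬ IsAttracting Y (powAut f k).f v ∧ ¬ IsAttracting Y (powAut f k).finv v ∧
        ¬ AttractsAnOrbit Y (powAut f k).f v ∧ ¬ AttractsAnOrbit Y (powAut f k).finv v := by
  refine ⟨Helper729.SAF.theAut, rfl, fun k hk =>
    ⟨dynDegree_iter _ 2 Helper729.SAF.T3.fmap_dynDegree k hk,
      dynDegree_iter _ 2 Helper729.SAF.T3.finvmap_dynDegree k hk, fun N Y v hv => ⟨?_, ?_, ?_, ?_⟩⟩⟩
  · exact no_attracting_iter k hk Y v hv
  · exact no_attracting_iter_inv k hk Y v hv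
  · exact no_orbit_iter k hk Y v hv
  · exact no_orbit_iter_inv k hk Y v hv
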